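import Pool.Agent.Helper19.SK.GQB

/-! `QB` is defined in `Pool.Agent.Helper19.SK.GQB`; this module only re-exports it. -/
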